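import Mathlib
import Pool.Agent.TH813.Rel2
import Pool.Agent.TH813.Ros

/-!
# Ax's theorem for exponentials and one derivation of `ℂ`

The light version (no elliptic functions) of `Pool.Agent.Y685.ax_fixed`; the auxiliary lemmas are
copied from `Pool.Agent.Y685.Clo`, `Pool.Agent.Y776.TorA` and `Pool.Agent.TH813.EllRank`.
-/

set_option autoImplicit false

open Finset Module

noncomputable section

namespace Pool.Agent.Y87.TW

open Pool.Agent.TH813.Rel (DF MK mem_cl subset_cl kills_clF exists_derF rk_le_of_subset_cl bracket_mem)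
open Pool.Agent.W252 Pool.Agent.W669.Gel
open Pool.Agent.TH813.Core Pool.Agent.TH813.Rank

variable {F : IntermediateField ℚ ℂ}

theorem D_mul (D : Derivation ℚ ℂ ℂ) (a b : ℂ) : D (a * b) = a * D b + b * D a := by
  rw [Derivation.leibniz, smul_eq_mul, smul_eq_mul]

/-- the constants of a derivation -/
def Cst (D : Derivation ℚ ℂ ℂ) : IntermediateField ℚ ℂ where
  carrier := {x | D x = 0}
  mul_mem' := by
    intro a b ha hb
    rw [Set.mem_ofPred_eq] at ha hb ⊢
    rw [D_mul, ha, hb, mul_zero, mul_zero, add_zero]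
  add_mem' := by
    intro a b ha hb
    rw [Set.mem_ofPred_eq] at ha hb ⊢
    rw [map_add, ha, hb, add_zero]
  algebraMap_mem' := fun r => D.map_algebraMap r
  inv_mem' := by
    intro a ha
    rw [Set.mem_ofPred_eq] at ha ⊢
    rw [Derivation.leibniz_inv, ha, smul_zero]

theorem mem_Cst {D : Derivation ℚ ℂ ℂ} {x : ℂ} : x ∈ Cst D ↔ D x = 0 := Iff.rfl

theorem D_DF (D : Derivation ℚ ℂ ℂ) : D ∈ DF (Cst D) := fun _ hx => hx

/-- the logarithmic derivative of the exponential of a number -/
def lg (δ : Derivation ℚ ℂ ℂ) (t : ℂ) : ℂ := δ (Complex.exp t) / Complex.exp t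

/-- the derivation of a number minus the logarithmic derivative of its exponential -/
def Tf (δ : Derivation ℚ ℂ ℂ) (t : ℂ) : ℂ := δ t - lg δ t

theorem Tf_add_der (δ δ' : Derivation ℚ ℂ ℂ) (t : ℂ) : Tf (δ + δ') t = Tf δ t + Tf δ' t := by
  unfold Tf lg
  rw [Derivation.add_apply, Derivation.add_apply]
  ring

theorem Tf_smul_der (c : ℂ) (δ : Derivation ℚ ℂ ℂ) (t : ℂ) : Tf (c • δ) t = c * Tf δ t := by
  unfold Tf lg
  rw [Derivation.smul_apply, Derivation.smul_apply, smul_eq_mul, smul_eq_mul]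
  ring

theorem D_exp {D : Derivation ℚ ℂ ℂ} {t : ℂ} (ht : Tf D t = 0) :
    D (Complex.exp t) = Complex.exp t * D t := by
  have h1 := Complex.exp_ne_zero t
  unfold Tf lg at ht
  field_simp at ht
  linear_combination -ht

/-- flatness for the exponential function -/
theorem D_Tf {D : Derivation ℚ ℂ ℂ} {t : ℂ} (ht : Tf D t = 0) (δ : Derivation ℚ ℂ ℂ) :
    D (Tf δ t) = Tf ⁅D, δ⁆ t := by
  have h1 := Complex.exp_ne_zero t
  have h2 := D_exp ht
  have h7 : lg δ t * Complex.exp t = δ (Complex.exp t) := by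
    unfold lg
    field_simp
  have h3 : D (lg δ t) * Complex.exp t = D (δ (Complex.exp t)) - lg δ t * D (Complex.exp t) := by
    have h5 := congrArg D h7
    rw [D_mul] at h5
    linear_combination h5
  have h6 : δ (D (Complex.exp t)) = Complex.exp t * δ (D t) + δ (Complex.exp t) * D t := by
    rw [h2, D_mul]
    ring
  apply mul_right_cancel₀ h1
  unfold Tf
  rw [map_sub, Derivation.commutator_apply]
  have h8 : lg ⁅D, δ⁆ t * Complex.exp t = D (δ (Complex.exp t)) - δ (D (Complex.exp t)) := by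
    unfold lg
    rw [Derivation.commutator_apply]
    field_simp
  rw [sub_mul, sub_mul, h8, h3, h6, h2]
  linear_combination (D t) * h7

theorem Tf_of_kill {δ : Derivation ℚ ℂ ℂ} {t : ℂ} (h1 : δ t = 0) (h2 : δ (Complex.exp t) = 0) :
    Tf δ t = 0 := by
  unfold Tf lg
  rw [h1, h2]
  ring

/-- the algebraic closure is the common kernel of the derivations -/
theorem mem_cl_iff (S : Set ℂ) (x : ℂ) :
    x ∈ (MK F).closure S ↔ ∀ D ∈ DF F, (∀ y ∈ S, D y = 0) → D x = 0 := by
  classical
  constructor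
  · intro hx D hF hD
    exact kills_clF F hF hD hx
  · intro h
    by_contra hcon
    obtain ⟨I, hI⟩ := (MK F).exists_isBasis S (Set.subset_univ _)
    rw [← hI.closure_eq_closure] at hcon
    obtain ⟨h1, h2⟩ := (hI.indep.notMem_closure_iff (Set.mem_univ _)).1 hcon
    have hind : AlgebraicIndependent F (fun i : ↥(insert x I) => (i : ℂ)) := h1
    obtain ⟨D, hF, hD⟩ := exists_derF F hind (fun i => if (i : ℂ) = x then 1 else 0)
    have h0 : ∀ i ∈ I, D i = 0 := by
      intro i hi
      rw [hD ⟨i, Or.inr hi⟩, if_neg]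
      intro h
      have h' : i = x := h
      exact h2 (h' ▸ hi)
    have h4 := h D hF (fun w hw =>
      kills_clF F hF h0 (by rw [hI.closure_eq_closure]; exact subset_cl _ hw))
    rw [hD ⟨x, Or.inl rfl⟩, if_pos rfl] at h4
    exact one_ne_zero h4

/-- the rank of a map whose kernel consists of the derivations which kill `S` -/
theorem rank_of_ker (S : Set ℂ) (hS : S.Finite) {ι : Type*} (f : DF F →ₗ[ℂ] (ι → ℂ))
    (h : ∀ D : DF F, f D = 0 ↔ ∀ x ∈ S, (D : Derivation ℚ ℂ ℂ) x = 0) :
    ((finrank ℂ (LinearMap.range f) : ℕ) : ℕ∞) = (MK F).eRk S := by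
  classical
  obtain ⟨I, hI⟩ := (MK F).exists_isBasis S (Set.subset_univ _)
  have hIfin : I.Finite := hS.subset hI.subset
  have : Fintype I := hIfin.fintype
  let ρ : DF F →ₗ[ℂ] (I → ℂ) :=
    { toFun := fun D i => (D : Derivation ℚ ℂ ℂ) i
      map_add' := fun D D' => rfl
      map_smul' := fun c D => rfl }
  have hind : AlgebraicIndependent F (fun i : I => (i : ℂ)) := hI.indep
  have hsurj : Function.Surjective ρ := by
    intro v
    obtain ⟨D, hF, hD⟩ := exists_derF F hind v
    exact ⟨⟨D, hF⟩, funext hD⟩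
  have hker : LinearMap.ker f = LinearMap.ker ρ := by
    ext D
    rw [LinearMap.mem_ker, LinearMap.mem_ker, h]
    constructor
    · intro h1
      funext i
      exact h1 _ (hI.subset i.2)
    · intro h1 w hw
      have h0 : ∀ i ∈ I, (D : Derivation ℚ ℂ ℂ) i = 0 := fun i hi => congrFun h1 ⟨i, hi⟩
      exact kills_clF F D.2 h0 (by rw [hI.closure_eq_closure]; exact subset_cl _ hw)
  rw [finrank_range_eq f ρ hker, LinearMap.range_eq_top.2 hsurj, finrank_top,
    finrank_fintype_fun_eq_card]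
  have h1 : I.encard = (MK F).eRk S := hI.encard_eq_eRk
  rw [← h1, ← Set.coe_fintypeCard]

/-- nonzero vectors with constant entries in a space which is stable under a derivation -/
theorem exists_const_vec (D : Derivation ℚ ℂ ℂ) {ι : Type*} [Fintype ι] (W : Set (ι → ℂ))
    (hs : ∀ a ∈ W, ∀ i, a i ≠ 0 → (fun j => a j / a i) ∈ W)
    (hD : ∀ a ∈ W, (fun i => D (a i)) ∈ W) {a : ι → ℂ} (ha : a ∈ W) (ha0 : a ≠ 0) :
    ∃ c ∈ W, c ≠ 0 ∧ ∀ i, D (c i) = 0 := by
  classical
  have key : ∀ n : ℕ, ∀ a ∈ W, a ≠ 0 → (univ.filter (fun i => a i ≠ 0)).card ≤ n →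
      ∃ c ∈ W, c ≠ 0 ∧ ∀ i, D (c i) = 0 := by
    intro n
    induction n with
    | zero =>
      intro a _ h0 hc
      exfalso
      apply h0
      have h1 : univ.filter (fun i => a i ≠ 0) = ∅ := card_eq_zero.1 (Nat.le_zero.1 hc)
      funext i
      by_contra hi
      have : i ∈ univ.filter (fun i => a i ≠ 0) := by simp; exact hi
      rw [h1] at this
      exact absurd this (notMem_empty i)
    | succ n ih =>
      intro a ha h0 hc
      obtain ⟨i₀, hi₀⟩ := Function.ne_iff.1 h0
      have hi₀ : a i₀ ≠ 0 := hi₀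
      set b : ι → ℂ := fun j => a j / a i₀ with hb
      have hbW : b ∈ W := hs a ha i₀ hi₀
      have hb1 : b i₀ = 1 := div_self hi₀
      by_cases hz : (fun i => D (b i)) = 0
      · refine ⟨b, hbW, ?_, fun i => congrFun hz i⟩
        intro h
        rw [h] at hb1
        exact zero_ne_one hb1
      · refine ih _ (hD b hbW) hz ?_
        have hsub : univ.filter (fun i => D (b i) ≠ 0) ⊆
            (univ.filter (fun i => a i ≠ 0)).erase i₀ := by
          intro i hi
          rw [mem_filter] at hi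
          rw [mem_erase, mem_filter]
          refine ⟨?_, mem_univ _, ?_⟩
          · rintro rfl
            apply hi.2
            rw [hb1, D.map_one_eq_zero]
          · intro hai
            apply hi.2
            rw [hb]
            simp only
            rw [hai, zero_div, map_zero]
        have h1 := card_le_card hsub
        rw [card_erase_of_mem (by simp; exact hi₀)] at h1
        omega
  exact key _ a ha ha0 le_rfl

/-- linear relations between functionals on the space of derivations -/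
theorem exists_rel {S : Set ℂ} (hS : S.Finite) {ι : Type*} [Fintype ι]
    (f : DF F →ₗ[ℂ] (ι → ℂ)) (h : ∀ D : DF F, (∀ x ∈ S, (D : Derivation ℚ ℂ ℂ) x = 0) → f D = 0)
    (hr : (MK F).eRk S < (Fintype.card ι : ℕ)) :
    ∃ a : ι → ℂ, a ≠ 0 ∧ ∀ D, ∑ i, a i * f D i = 0 := by
  classical
  have : Fintype S := hS.fintype
  let g : DF F →ₗ[ℂ] (S → ℂ) :=
    { toFun := fun D s => (D : Derivation ℚ ℂ ℂ) s
      map_add' := fun D D' => rfl
      map_smul' := fun c D => rfl }
  have hg : ∀ D : DF F, g D = 0 ↔ ∀ x ∈ S, (D : Derivation ℚ ℂ ℂ) x = 0 := fun D =>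
    ⟨fun h x hx => congrFun h ⟨x, hx⟩, fun h => funext fun s => h s s.2⟩
  have h1 := rank_of_ker S hS g hg
  rw [← h1] at hr
  have h2 : finrank ℂ (LinearMap.range g) < Fintype.card ι := by exact_mod_cast hr
  have hker : LinearMap.ker g ≤ LinearMap.ker f := by
    intro D hD
    exact h D ((hg D).1 hD)
  let u : LinearMap.range g →ₗ[ℂ] (ι → ℂ) :=
    ((LinearMap.ker g).liftQ f hker) ∘ₗ (g.quotKerEquivRange.symm : LinearMap.range g →ₗ[ℂ] _)
  have h3 : LinearMap.range f ≤ LinearMap.range u := by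
    rintro _ ⟨D, rfl⟩
    refine ⟨g.quotKerEquivRange (Submodule.Quotient.mk D), ?_⟩
    change ((LinearMap.ker g).liftQ f hker) (g.quotKerEquivRange.symm
      (g.quotKerEquivRange (Submodule.Quotient.mk D))) = f D
    rw [LinearEquiv.symm_apply_apply]
    exact Submodule.liftQ_apply _ _ _
  have h4 : finrank ℂ (LinearMap.range f) < Fintype.card ι :=
    lt_of_le_of_lt ((Submodule.finrank_mono h3).trans (LinearMap.finrank_range_le u)) h2
  have h5 : LinearMap.range f < ⊤ := by
    rw [lt_top_iff_ne_top]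
    intro h6
    rw [h6, finrank_top, finrank_fintype_fun_eq_card] at h4
    exact lt_irrefl _ h4
  obtain ⟨φ, hφ, hφ2⟩ := Submodule.exists_le_ker_of_lt_top _ h5
  refine ⟨fun i => φ (Pi.single i 1), ?_, fun D => ?_⟩
  · intro h0
    apply hφ
    apply LinearMap.pi_ext'
    intro i
    ext
    exact congrFun h0 i
  · have h6 : φ (f D) = 0 := hφ2 ⟨D, rfl⟩
    rw [← h6]
    conv_rhs => rw [← Finset.univ_sum_single (f D)]
    rw [map_sum]
    refine sum_congr rfl (fun i _ => ?_)
    have : Pi.single i (f D i) = (f D i) • (Pi.single i (1 : ℂ) : ι → ℂ) := by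
      rw [← Pi.single_smul, smul_eq_mul, mul_one]
    rw [this, map_smul, smul_eq_mul, mul_comm]

/-- functionals separate the complex numbers -/
theorem exists_psi {x : ℂ} (hx : x ≠ 0) : ∃ ψ : ℂ →ₗ[ℚ] ℚ, ψ x ≠ 0 := by
  by_contra hcon
  push Not at hcon
  exact hx ((Module.forall_dual_apply_eq_zero_iff ℚ x).1 hcon)

/-- the numbers attached to finitely many numbers -/
def ET {s : ℕ} (t : Fin s → ℂ) : Set ℂ := Set.range t ∪ Set.range (fun l => Complex.exp (t l))

theorem ET_finite {s : ℕ} (t : Fin s → ℂ) : (ET t).Finite :=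
  (Set.finite_range _).union (Set.finite_range _)

/-- **Ax's theorem** for exponentials and one derivation. -/
theorem ax_exp {s : ℕ} {D : Derivation ℚ ℂ ℂ} {t : Fin s → ℂ} (ht : ∀ l, Tf D (t l) = 0)
    (htD : ∀ q : Fin s → ℚ, D (∑ l, q l • t l) = 0 → q = 0) (hs : 0 < s) :
    ((s + 1 : ℕ) : ℕ∞) ≤ (MK (Cst D)).eRk (ET t) := by
  classical
  by_contra hcon
  push Not at hcon
  have hDt : D (t ⟨0, hs⟩) ≠ 0 := fun h0 => by
    have h4 := htD (Pi.single ⟨0, hs⟩ 1) (by
      rw [sum_eq_single (⟨0, hs⟩ : Fin s)]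
      · rw [Pi.single_eq_same, one_smul]; exact h0
      · intro j _ hj
        rw [Pi.single_eq_of_ne hj, zero_smul]
      · intro h; exact absurd (mem_univ _) h)
    have h5 := congrFun h4 ⟨0, hs⟩
    rw [Pi.single_eq_same] at h5
    exact one_ne_zero h5
  set x₀ := t ⟨0, hs⟩ with hx₀
  let f : DF (Cst D) →ₗ[ℂ] (Option (Fin s) → ℂ) :=
    { toFun := fun δ o => o.elim ((δ : Derivation ℚ ℂ ℂ) x₀) (fun l => Tf (δ : Derivation ℚ ℂ ℂ) (t l))
      map_add' := fun δ δ' => by
        funext o
        rcases o with _ | k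
        · rfl
        · exact Tf_add_der _ _ _
      map_smul' := fun c δ => by
        funext o
        rcases o with _ | k
        · rfl
        · exact Tf_smul_der _ _ _ }
  obtain ⟨a, ha0, ha⟩ := exists_rel (ET_finite t) f (fun δ hδ => by
    funext o
    rcases o with _ | l
    · exact hδ _ (Or.inl ⟨_, rfl⟩)
    · exact Tf_of_kill (hδ _ (Or.inl ⟨l, rfl⟩)) (hδ _ (Or.inr ⟨l, rfl⟩))) (by
    rw [Fintype.card_option, Fintype.card_fin]
    exact hcon)
  have haN : a none = 0 := by
    have h1 := ha ⟨D, D_DF D⟩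
    rw [Fintype.sum_option] at h1
    have h4 : ∀ k, f ⟨D, D_DF D⟩ (some k) = 0 := fun k => ht k
    simp only [h4, mul_zero, sum_const_zero, add_zero] at h1
    exact (mul_eq_zero.1 h1).resolve_right hDt
  let W : Set (Fin s → ℂ) := {a | ∀ δ : DF (Cst D), ∑ k, a k * Tf (δ : Derivation ℚ ℂ ℂ) (t k) = 0}
  have haW : (fun k => a (some k)) ∈ W := by
    intro δ
    have h1 := ha δ
    rw [Fintype.sum_option, haN, zero_mul, zero_add] at h1
    exact h1
  have ha' : (fun k => a (some k)) ≠ 0 := by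
    intro h0
    apply ha0
    funext o
    rcases o with _ | k
    · exact haN
    · exact congrFun h0 k
  obtain ⟨c, hcW, hc0, hcD⟩ := exists_const_vec D W (fun a ha i _ δ => by
      have := ha δ
      have e : ∑ j, a j / a i * Tf (δ : Derivation ℚ ℂ ℂ) (t j) =
          (∑ j, a j * Tf (δ : Derivation ℚ ℂ ℂ) (t j)) / a i := by
        rw [sum_div]
        exact sum_congr rfl (fun j _ => by ring)
      rw [e, this, zero_div]) (fun a ha δ => by
      have h1 := congrArg D (ha δ)
      rw [map_zero, map_sum] at h1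
      let δ' : DF (Cst D) := ⟨⁅D, (δ : Derivation ℚ ℂ ℂ)⁆, bracket_mem _ (D_DF D) δ.2⟩
      have h5 : ∀ k, D (a k * Tf (δ : Derivation ℚ ℂ ℂ) (t k)) =
          a k * Tf (δ' : Derivation ℚ ℂ ℂ) (t k) + D (a k) * Tf (δ : Derivation ℚ ℂ ℂ) (t k) := by
        intro k
        rw [D_mul, D_Tf (ht k)]
        ring
      rw [sum_congr rfl (fun k _ => h5 k), sum_add_distrib, ha δ', zero_add] at h1
      exact h1) haW ha'
  -- the relation
  have hrel : ∀ δ ∈ DF (Cst D), ∑ l, c l * Tf δ (t l) = 0 := fun δ hδ => hcW ⟨δ, hδ⟩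
  have hlin : ∀ δ ∈ DF (Cst D), δ (∑ l, c l * t l) =
      ∑ l, c l * (δ (Complex.exp (t l)) / Complex.exp (t l)) := by
    intro δ hδ
    have h1 := hrel δ hδ
    rw [map_sum]
    have h2 : ∀ l, δ (c l * t l) = c l * Tf δ (t l) +
        c l * (δ (Complex.exp (t l)) / Complex.exp (t l)) := by
      intro l
      rw [D_mul, hδ _ (hcD l)]
      unfold Tf lg
      ring
    rw [sum_congr rfl (fun l _ => h2 l), sum_add_distrib, h1, zero_add]
  have hex := Pool.Agent.TH813.Ros.exact (Cst D) c (fun l => Complex.exp (t l)) (fun l => hcD l)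
    (fun l => Complex.exp_ne_zero _) (∑ l, c l * t l) hlin
  have hrat := Pool.Agent.TH813.Ros.rational (Cst D) c (fun l => Complex.exp (t l)) (fun l => hcD l)
    (fun l => Complex.exp_ne_zero _) (fun δ hδ => by rw [← hlin δ hδ, hex δ hδ])
  apply hc0
  funext l
  by_contra hne
  obtain ⟨ψ, hψ⟩ := exists_psi hne
  have h1 := hrat ψ D (D_DF D)
  have h2 := htD (fun l => ψ (c l)) (by
    rw [map_sum, ← h1]
    refine sum_congr rfl (fun l _ => ?_)
    rw [Derivation.map_smul_of_tower, D_exp (ht l), Rat.smul_def]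
    have := Complex.exp_ne_zero (t l)
    field_simp)
  exact hψ (congrFun h2 l)

end Pool.Agent.Y87.TW
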