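import Mathlib
import Pool.Agent.Y87.TW.AxE
import Pool.Agent.Y124.StdC
import Pool.Agent.Y119.CB.Ext
import Pool.Agent.Y776.Chain

/-!
# Ax's theorem for analytic functions of one variable

The first part (generic points) is copied from `Pool.Agent.Y776.Fam.Fn` and `Pool.Agent.Y776.Fam.An`
(there it imports the theory of elliptic functions).
-/

set_option autoImplicit false

open Filter Topology Set MvPolynomial

noncomputable section

namespace Pool.Agent.Y87.TW

open Pool.Agent.Y124 (tc LocInd tc_sum eventually_zero_of_tc)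
open Pool.Agent.TH813.Rel (DF MK mem_cl subset_cl rk_le_of_subset_cl)

variable {U : Set ℂ}

/-- the zeros of a nonzero analytic function are countable -/
theorem countable_zeros {U : Set ℂ} (hc : IsPreconnected U) {f : ℂ → ℂ}
    (hf : AnalyticOnNhd ℂ f U) (hne : ∃ z ∈ U, f z ≠ 0) : {z | z ∈ U ∧ f z = 0}.Countable := by
  apply (HereditarilyLindelofSpace.isLindelof _).countable_of_isDiscrete
  rw [isDiscrete_iff_nhdsNE]
  intro c hcU
  rw [← _root_.disjoint_iff, Filter.disjoint_principal_right]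
  rcases (hf c hcU.1).eventually_eq_zero_or_eventually_ne_zero with h | h
  · exfalso
    obtain ⟨z, hz, hne⟩ := hne
    exact hne (hf.eqOn_zero_of_preconnected_of_eventuallyEq_zero hc hcU.1 h hz)
  · filter_upwards [h] with x hx hx2
    exact hx hx2.2

/-- the Taylor coefficients of all monomials -/
def TS {Y₀ : Type} [Fintype Y₀] (y : Y₀ → ℂ → ℂ) (zs : ℂ) : Set ℂ :=
  Set.range (fun p : (Option Y₀ →₀ ℕ) × ℕ =>
    tc (fun z => ∏ o : Option Y₀, (o.elim z (fun i => y i z)) ^ p.1 o) zs p.2)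

theorem TS_countable {Y₀ : Type} [Fintype Y₀] (y : Y₀ → ℂ → ℂ) (zs : ℂ) : (TS y zs).Countable :=
  Set.countable_range _

/-- independence of functions from independence of their values at one point -/
theorem locInd_of {Y₀ : Type} [Fintype Y₀] (hc : IsPreconnected U) (hU : IsOpen U)
    {y : Y₀ → ℂ → ℂ} (hy : ∀ i, AnalyticOnNhd ℂ (y i) U) {F : IntermediateField ℚ ℂ} {zs z₀ : ℂ}
    (hzs : zs ∈ U) (hT : TS y zs ⊆ F) (hz₀ : z₀ ∈ U)
    (hind : AlgebraicIndependent F (fun o : Option Y₀ => o.elim z₀ (fun i => y i z₀))) {t : ℂ}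
    (ht : t ∈ U) : LocInd y t := by
  classical
  intro P hP
  set f : (Option Y₀ →₀ ℕ) → ℂ → ℂ := fun m z => ∏ o : Option Y₀, (o.elim z (fun i => y i z)) ^ m o
    with hf
  have hfa : ∀ m, AnalyticOnNhd ℂ (f m) U := by
    intro m z hz
    refine Finset.analyticAt_fun_prod _ fun o _ => ?_
    cases o with
    | none => exact analyticAt_id.pow _
    | some i => exact (hy i z hz).pow _
  have ev : ∀ z, eval (fun o : Option Y₀ => o.elim z fun i => y i z) P =
      ∑ m ∈ P.support, P.coeff m * f m z := fun z => eval_eq' _ P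
  have hsum : ∀ c : (Option Y₀ →₀ ℕ) → ℂ,
      AnalyticOnNhd ℂ (fun z => ∑ m ∈ P.support, c m * f m z) U := fun c z hz =>
    Finset.analyticAt_fun_sum _ fun m _ => analyticAt_const.mul (hfa m z hz)
  have h0 : ∀ᶠ z in 𝓝 t, ∑ m ∈ P.support, P.coeff m * f m z = 0 := by
    filter_upwards [hP] with z hz
    rw [← ev]
    exact hz
  have h1 : ∀ z ∈ U, ∑ m ∈ P.support, P.coeff m * f m z = 0 := fun z hz =>
    (hsum P.coeff).eqOn_zero_of_preconnected_of_eventuallyEq_zero hc ht h0 hz
  have h2 : ∀ n, ∑ m ∈ P.support, P.coeff m * tc (f m) zs n = 0 := by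
    intro n
    rw [← tc_sum P.support P.coeff f zs (fun m => hfa m zs hzs)]
    have h3 : (fun z => ∑ m ∈ P.support, P.coeff m * f m z) =ᶠ[𝓝 zs] fun _ => 0 := by
      filter_upwards [hU.mem_nhds hzs] with z hz
      exact h1 z hz
    unfold tc
    rw [h3.iteratedDeriv_eq n, iteratedDeriv_fun_const_zero]
    simp
  -- functionals
  have h3 : ∀ (ψ : ℂ →ₗ[F] F) (m : Option Y₀ →₀ ℕ), m ∈ P.support → ψ (P.coeff m) = 0 := by
    intro ψ
    have h4 : ∀ n, ∑ m ∈ P.support, (ψ (P.coeff m) : ℂ) * tc (f m) zs n = 0 := by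
      intro n
      have h5 := congrArg (fun x => ((ψ x : F) : ℂ)) (h2 n)
      simp only [map_sum, map_zero] at h5
      have h6 : ∀ m, (ψ (P.coeff m * tc (f m) zs n) : ℂ) = (ψ (P.coeff m) : ℂ) * tc (f m) zs n := by
        intro m
        have hmem : tc (f m) zs n ∈ F := hT ⟨(m, n), rfl⟩
        have h7 : P.coeff m * tc (f m) zs n = (⟨tc (f m) zs n, hmem⟩ : F) • P.coeff m := by
          rw [IntermediateField.smul_def, smul_eq_mul, mul_comm]
        rw [h7, map_smul, smul_eq_mul]
        push_cast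
        ring
      push_cast at h5
      rw [← h5]
      exact Finset.sum_congr rfl fun m _ => (h6 m).symm
    have h5 : ∀ᶠ z in 𝓝 zs, ∑ m ∈ P.support, (ψ (P.coeff m) : ℂ) * f m z = 0 := by
      apply eventually_zero_of_tc (hsum (fun m => (ψ (P.coeff m) : ℂ)) zs hzs)
      intro n
      rw [tc_sum P.support (fun m => (ψ (P.coeff m) : ℂ)) f zs (fun m => hfa m zs hzs)]
      exact h4 n
    have h6 : ∑ m ∈ P.support, (ψ (P.coeff m) : ℂ) * f m z₀ = 0 :=
      (hsum (fun m => (ψ (P.coeff m) : ℂ))).eqOn_zero_of_preconnected_of_eventuallyEq_zero hc hzs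
        h5 hz₀
    have h7 : (∑ m ∈ P.support, monomial m (ψ (P.coeff m)) : MvPolynomial (Option Y₀) F) = 0 := by
      apply (algebraicIndependent_iff.1 hind)
      rw [map_sum, ← h6]
      refine Finset.sum_congr rfl fun m _ => ?_
      rw [aeval_monomial]
      congr 1
      rw [Finsupp.prod_fintype _ _ (fun o => pow_zero _)]
    intro m hm
    have h8 := congrArg (coeff m) h7
    rw [coeff_sum, coeff_zero, Finset.sum_eq_single m] at h8
    · rwa [coeff_monomial, if_pos rfl] at h8
    · intro m' _ hne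
      rw [coeff_monomial, if_neg hne]
    · intro h; exact absurd hm h
  ext m
  rw [coeff_zero]
  by_contra hne
  have hm : m ∈ P.support := mem_support_iff.2 hne
  exact hne ((Module.forall_dual_apply_eq_zero_iff F _).1 (fun ψ => h3 ψ m hm))

/-- polynomials over `F` which vanish at the point vanish identically -/
def Gn (U : Set ℂ) (F : IntermediateField ℚ ℂ) {κ : Type} (f : κ → ℂ → ℂ) (z₀ : ℂ) : Prop :=
  ∀ P : MvPolynomial κ F, aeval (fun k => f k z₀) P = 0 → ∀ z ∈ U, aeval (fun k => f k z) P = 0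

theorem an_aeval {F : IntermediateField ℚ ℂ} {κ : Type} {f : κ → ℂ → ℂ}
    (hf : ∀ k, AnalyticOnNhd ℂ (f k) U) (P : MvPolynomial κ F) :
    AnalyticOnNhd ℂ (fun z => aeval (fun k => f k z) P) U := by
  induction P using MvPolynomial.induction_on with
  | C a =>
    simp only [aeval_C]
    exact analyticOnNhd_const
  | add p q hp hq =>
    simp only [map_add]
    exact hp.add hq
  | mul_X p s hp =>
    simp only [map_mul, aeval_X]
    exact hp.mul (hf s)

theorem countable_Gn {F : IntermediateField ℚ ℂ} {κ : Type} [Countable κ] {f : κ → ℂ → ℂ}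
    (hc : IsPreconnected U) (hF : (F : Set ℂ).Countable) (hf : ∀ k, AnalyticOnNhd ℂ (f k) U) :
    {z | z ∈ U ∧ ¬ Gn U F f z}.Countable := by
  have hFc : Countable F := hF.to_subtype
  have hRc : Countable (MvPolynomial κ F) := by
    rw [← Cardinal.mk_le_aleph0_iff]
    refine MvPolynomial.cardinalMk_le_max.trans ?_
    exact max_le (max_le (Cardinal.mk_le_aleph0_iff.2 hFc)
      (Cardinal.mk_le_aleph0_iff.2 inferInstance)) le_rfl
  refine (Set.countable_iUnion (fun P : {P : MvPolynomial κ F //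
    ∃ z ∈ U, aeval (fun k => f k z) P ≠ 0} => countable_zeros hc (an_aeval hf P.1) P.2)).mono ?_
  rintro z ⟨hz, hG⟩
  unfold Gn at hG
  push Not at hG
  obtain ⟨P, h1, w, hw, hne⟩ := hG
  exact mem_iUnion.2 ⟨⟨P, w, hw, hne⟩, hz, h1⟩

theorem hasDerivAt_aeval {F : IntermediateField ℚ ℂ} {κ : Type} [Fintype κ] {f : κ → ℂ → ℂ} {z₀ : ℂ}
    (hf : ∀ k, DifferentiableAt ℂ (f k) z₀) (P : MvPolynomial κ F) :
    HasDerivAt (fun z => aeval (fun k => f k z) P)
      (∑ k, aeval (fun k => f k z₀) (pderiv k P) * deriv (f k) z₀) z₀ := by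
  classical
  induction P using MvPolynomial.induction_on with
  | C a =>
    simp only [aeval_C, pderiv_C, map_zero, zero_mul, Finset.sum_const_zero]
    exact hasDerivAt_const _ _
  | add p q hp hq =>
    simp only [map_add, add_mul, Finset.sum_add_distrib]
    exact hp.add hq
  | mul_X p s hp =>
    have h1 := hp.mul (hf s).hasDerivAt
    simp only [map_mul, aeval_X]
    refine h1.congr_deriv ?_
    have h4 : ∀ x, aeval (fun k => f k z₀) (pderiv x (p * X s)) * deriv (f x) z₀ =
        aeval (fun k => f k z₀) p * (if x = s then deriv (f x) z₀ else 0) +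
          f s z₀ * (aeval (fun k => f k z₀) (pderiv x p) * deriv (f x) z₀) := by
      intro x
      have h3 : aeval (fun k => f k z₀) (pderiv x (X s : MvPolynomial κ F)) =
          if x = s then (1 : ℂ) else 0 := by
        rw [pderiv_X]
        by_cases hx : x = s
        · subst hx; simp
        · have hx' : s ≠ x := fun h => hx h.symm
          simp [hx, hx']
      rw [Derivation.leibniz, map_add, smul_eq_mul, smul_eq_mul, map_mul, map_mul, h3, aeval_X]
      split_ifs <;> ring
    rw [Finset.sum_congr rfl fun x _ => h4 x, Finset.sum_add_distrib, ← Finset.mul_sum,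
      ← Finset.mul_sum, Finset.sum_ite_eq' Finset.univ s (fun x => deriv (f x) z₀),
      if_pos (Finset.mem_univ s)]
    ring

/-- the derivation at a generic point -/
theorem exists_D {F : IntermediateField ℚ ℂ} {κ : Type} [Fintype κ] {f : κ → ℂ → ℂ} {z₀ : ℂ}
    (hU : IsOpen U) (hz : z₀ ∈ U) (hf : ∀ k, AnalyticOnNhd ℂ (f k) U) (hG : Gn U F f z₀) :
    ∃ D ∈ DF F, ∀ k, D (f k z₀) = deriv (f k) z₀ := by
  obtain ⟨D, hD⟩ := Pool.Agent.Y119.CB.exists_derivation (k := F) (fun k => f k z₀)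
    (fun k => deriv (f k) z₀) (by
      intro P hP
      have h1 := hasDerivAt_aeval (fun k => (hf k z₀ hz).differentiableAt) P
      have h2 : (fun z => aeval (fun k => f k z) P) =ᶠ[𝓝 z₀] fun _ => 0 := by
        filter_upwards [hU.mem_nhds hz] with z hz'
        exact hG P hP z hz'
      exact (h1.congr_of_eventuallyEq h2.symm).unique (hasDerivAt_const z₀ (0 : ℂ)))
  exact ⟨D.restrictScalars ℚ, fun y hy => D.map_algebraMap (⟨y, hy⟩ : F), hD⟩

/-- a family is independent if its rank is maximal -/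
theorem indep_of_rank {k : Type} [Field k] [Algebra k ℂ] {ι : Type} [Fintype ι] {x : ι → ℂ}
    (h : ((Fintype.card ι : ℕ) : ℕ∞) ≤ (MK k).eRk (Set.range x)) : AlgebraicIndependent k x := by
  classical
  have hfin : (Set.range x).Finite := Set.finite_range x
  have h1 : (Set.range x).encard ≤ (Fintype.card ι : ℕ) := by
    rw [← Set.image_univ]
    refine (Set.encard_image_le _ _).trans ?_
    rw [Set.encard_univ, ENat.card_eq_coe_fintype_card]
  have h2 : (MK k).eRk (Set.range x) ≤ (Set.range x).encard := (MK k).eRk_le_encard _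
  have h3 : (MK k).eRk (Set.range x) = (Set.range x).encard := le_antisymm h2 (h1.trans h)
  have h4 : (MK k).Indep (Set.range x) :=
    (Matroid.indep_iff_eRk_eq_encard_of_finite hfin).2 h3
  have h5 : Function.Injective x := by
    have h6 : (Set.range x).encard = (Fintype.card ι : ℕ) := le_antisymm h1 (h.trans h2)
    rw [← Set.image_univ] at h6
    have h7 := Set.Finite.injOn_of_encard_image_eq (s := (Set.univ : Set ι)) (f := x)
      Set.finite_univ (by
      rw [h6, Set.encard_univ, ENat.card_eq_coe_fintype_card])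
    exact Set.injOn_univ.1 h7
  rw [AlgebraicIndependent.matroid_indep_iff] at h4
  exact (algebraicIndependent_subtype_range h5).1 h4

theorem exists_cf {T : Set ℂ} (hT : T.Countable) :
    ∃ F : IntermediateField ℚ ℂ, (F : Set ℂ).Countable ∧ T ⊆ F := by
  let F : IntermediateField ℚ ℂ := (Subfield.closure T).toIntermediateField (fun q => by
    rw [eq_ratCast]
    exact SubfieldClass.ratCast_mem _ q)
  exact ⟨F, Pool.Agent.Y776.countable_closure hT, fun x hx => Subfield.subset_closure hx⟩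

/-- open sets are not countable -/
theorem exists_notMem {B : Set ℂ} (hU : IsOpen U) (hne : U.Nonempty) (hB : B.Countable) :
    ∃ z ∈ U, z ∉ B := by
  have h1 : Dense (Bᶜ) := hB.dense_compl ℂ
  obtain ⟨z, hz, hz'⟩ := h1.inter_open_nonempty U hU hne
  exact ⟨z, hz, hz'⟩

/-! ## New part -/

/-- the point with the coordinates `z` and `y_i(z)` -/
def pt {Y₀ : Type} (y : Y₀ → ℂ → ℂ) (z : ℂ) : Option Y₀ → ℂ := fun o => o.elim z (fun i => y i z)

/-- `f` is a rational function of `z` and the functions `y_i` -/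
def RatOver (U : Set ℂ) {Y₀ : Type} (y : Y₀ → ℂ → ℂ) (f : ℂ → ℂ) : Prop :=
  ∃ A B : MvPolynomial (Option Y₀) ℂ, (∃ z ∈ U, eval (pt y z) B ≠ 0) ∧
    ∀ z ∈ U, eval (pt y z) B * f z = eval (pt y z) A

theorem RatOver.poly {Y₀ : Type} {y : Y₀ → ℂ → ℂ} {f : ℂ → ℂ} (hne : U.Nonempty)
    (A : MvPolynomial (Option Y₀) ℂ) (h : ∀ z ∈ U, f z = eval (pt y z) A) : RatOver U y f := by
  obtain ⟨w, hw⟩ := hne
  exact ⟨A, 1, ⟨w, hw, by simp⟩, fun z hz => by rw [map_one, one_mul, h z hz]⟩

theorem eval_mem {κ : Type} {C : IntermediateField ℚ ℂ} {x : κ → ℂ} {A : MvPolynomial κ ℂ}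
    (hx : ∀ i, x i ∈ C) (hA : ∀ m, A.coeff m ∈ C) : eval x A ∈ C := by
  rw [eval_eq]
  exact sum_mem fun m _ => mul_mem (hA m) (prod_mem fun i _ => pow_mem (hx i) _)

theorem coeffs_countable {κ : Type} (A : MvPolynomial κ ℂ) :
    (Set.range (fun m => A.coeff m)).Countable := by
  have h1 : Set.range (fun m => A.coeff m) ⊆ {0} ∪ ((fun m => A.coeff m) '' (A.support : Set (κ →₀ ℕ))) := by
    rintro _ ⟨m, rfl⟩
    by_cases hm : m ∈ A.support
    · exact Or.inr ⟨m, hm, rfl⟩
    · left
      simpa using notMem_support_iff.1 hm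
  exact (((Set.countable_singleton _).union ((Finset.countable_toSet _).image _))).mono h1

/-- **Ax's theorem** for analytic functions of one variable: if `u_1, …, u_s` are linearly
independent over `ℚ` modulo constants and `u_l`, `e^(u_l)` are rational functions of `z` and
`y_1, …, y_s`, then `z, y_1, …, y_s` are algebraically independent over `ℂ`. -/
theorem ax_fun (hU : IsOpen U) (hc : IsPreconnected U) {s : ℕ} (hs : 0 < s) {u : Fin s → ℂ → ℂ}
    (hu : ∀ l, AnalyticOnNhd ℂ (u l) U)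
    (hlin : ∀ q : Fin s → ℚ, (∀ z ∈ U, ∑ l, (q l : ℂ) * deriv (u l) z = 0) → q = 0)
    {Y₀ : Type} [Fintype Y₀] (hcard : Fintype.card Y₀ = s) {y : Y₀ → ℂ → ℂ}
    (hy : ∀ i, AnalyticOnNhd ℂ (y i) U) (hA : ∀ l, RatOver U y (u l))
    (hE : ∀ l, RatOver U y (fun z => Complex.exp (u l z))) {t : ℂ} (ht : t ∈ U) : LocInd y t := by
  classical
  choose A B hB hAB using hA
  choose A' B' hB' hAB' using hE
  obtain ⟨F, hFc, hSF⟩ := exists_cf (T := (⋃ l, Set.range (fun m => (A l).coeff m)) ∪
    ((⋃ l, Set.range (fun m => (B l).coeff m)) ∪ ((⋃ l, Set.range (fun m => (A' l).coeff m)) ∪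
    ((⋃ l, Set.range (fun m => (B' l).coeff m)) ∪ TS y t))))
    ((Set.countable_iUnion fun l => coeffs_countable _).union
      ((Set.countable_iUnion fun l => coeffs_countable _).union
      ((Set.countable_iUnion fun l => coeffs_countable _).union
      ((Set.countable_iUnion fun l => coeffs_countable _).union (TS_countable _ _)))))
  have fA : ∀ l m, (A l).coeff m ∈ F := fun l m => hSF (Or.inl (mem_iUnion.2 ⟨l, ⟨m, rfl⟩⟩))
  have fB : ∀ l m, (B l).coeff m ∈ F := fun l m => hSF (Or.inr (Or.inl (mem_iUnion.2 ⟨l, ⟨m, rfl⟩⟩)))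
  have fA' : ∀ l m, (A' l).coeff m ∈ F := fun l m =>
    hSF (Or.inr (Or.inr (Or.inl (mem_iUnion.2 ⟨l, ⟨m, rfl⟩⟩))))
  have fB' : ∀ l m, (B' l).coeff m ∈ F := fun l m =>
    hSF (Or.inr (Or.inr (Or.inr (Or.inl (mem_iUnion.2 ⟨l, ⟨m, rfl⟩⟩)))))
  have hTS : TS y t ⊆ F := fun x hx => hSF (Or.inr (Or.inr (Or.inr (Or.inr hx))))
  -- the family
  let f : Option Y₀ ⊕ (Fin s ⊕ (Fin s ⊕ Fin s)) → ℂ → ℂ :=
    Sum.elim (fun o z => pt y z o) (Sum.elim u (Sum.elim (fun l z => Complex.exp (u l z))
      (fun l => deriv (u l))))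
  have hf : ∀ k, AnalyticOnNhd ℂ (f k) U := by
    intro k z hz
    rcases k with (_ | i) | l | l | l
    · exact analyticAt_id
    · exact hy i z hz
    · exact hu l z hz
    · exact (hu l z hz).cexp
    · exact (hu l).deriv z hz
  obtain ⟨z₀, hz₀, hg⟩ := exists_notMem hU ⟨t, ht⟩ (countable_Gn hc hFc hf)
  have hG : Gn U F f z₀ := by
    by_contra hcon
    exact hg ⟨hz₀, hcon⟩
  obtain ⟨D, hDF, hD⟩ := exists_D hU hz₀ hf hG
  have hFC : F ≤ Cst D := fun x hx => hDF x hx
  -- the denominators do not vanish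
  have hne : ∀ Q : MvPolynomial (Option Y₀) ℂ, (∀ m, Q.coeff m ∈ F) →
      (∃ z ∈ U, eval (pt y z) Q ≠ 0) → eval (pt y z₀) Q ≠ 0 := by
    rintro Q hQ ⟨w, hw, hne⟩ h0
    apply hne
    obtain ⟨Q', rfl⟩ : Q ∈ Set.range (MvPolynomial.map (σ := Option Y₀) (algebraMap F ℂ)) := by
      rw [MvPolynomial.mem_range_map_iff_coeffs_subset]
      intro c hc
      obtain ⟨m, -, rfl⟩ := MvPolynomial.mem_coeffs_iff.1 (Finset.mem_coe.1 hc)
      exact ⟨⟨_, hQ m⟩, rfl⟩
    have e1 : ∀ z, eval (pt y z) (MvPolynomial.map (algebraMap F ℂ) Q') =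
        aeval (fun k => f k z) (rename Sum.inl Q') := by
      intro z
      rw [aeval_rename, eval_map, aeval_def]
      rfl
    rw [e1]
    rw [e1] at h0
    exact hG _ h0 w hw
  -- the derivation
  have hDu : ∀ l, D (u l z₀) = deriv (u l) z₀ := fun l => hD (Sum.inr (Sum.inl l))
  have hTf : ∀ l, Tf D (u l z₀) = 0 := by
    intro l
    have h1 : D (Complex.exp (u l z₀)) = deriv (fun z => Complex.exp (u l z)) z₀ :=
      hD (Sum.inr (Sum.inr (Sum.inl l)))
    have h2 : deriv (fun z => Complex.exp (u l z)) z₀ = Complex.exp (u l z₀) * deriv (u l) z₀ :=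
      ((hu l z₀ hz₀).differentiableAt.hasDerivAt.cexp).deriv
    unfold Tf lg
    rw [h1, h2, hDu]
    have := Complex.exp_ne_zero (u l z₀)
    field_simp
    ring
  have hli : ∀ q : Fin s → ℚ, D (∑ l, q l • u l z₀) = 0 → q = 0 := by
    intro q hq
    apply hlin
    intro z hz
    have h1 := hG (∑ l, C (algebraMap ℚ F (q l)) * X (Sum.inr (Sum.inr (Sum.inr l)))) (by
      rw [map_sum, ← hq, map_sum]
      refine Finset.sum_congr rfl fun l _ => ?_
      rw [map_mul, aeval_C, aeval_X, Derivation.map_smul_of_tower, hDu, Rat.smul_def]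
      rfl) z hz
    rw [map_sum] at h1
    rw [← h1]
    refine Finset.sum_congr rfl fun l _ => ?_
    rw [map_mul, aeval_C, aeval_X]
    rfl
  have hrank := ax_exp hTf hli hs
  have key : AlgebraicIndependent (Cst D) (pt y z₀) := by
    apply indep_of_rank
    rw [Fintype.card_option, hcard]
    refine hrank.trans (rk_le_of_subset_cl ?_)
    have hmem : ∀ (Q R : MvPolynomial (Option Y₀) ℂ) (x : ℂ), (∀ m, Q.coeff m ∈ F) →
        (∀ m, R.coeff m ∈ F) → eval (pt y z₀) R ≠ 0 → eval (pt y z₀) R * x = eval (pt y z₀) Q →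
        x ∈ (MK (Cst D)).closure (Set.range (pt y z₀)) := by
      intro Q R x hQ hR hR0 h
      rw [mem_cl_iff]
      intro δ hδ hk
      have h1 : x = eval (pt y z₀) Q / eval (pt y z₀) R := by
        rw [← h]
        field_simp
      have h2 : x ∈ Cst δ := by
        rw [h1]
        exact div_mem (eval_mem (fun o => hk _ ⟨o, rfl⟩) (fun m => hδ _ (hFC (hQ m))))
          (eval_mem (fun o => hk _ ⟨o, rfl⟩) (fun m => hδ _ (hFC (hR m))))
      exact h2
    rintro x (⟨l, rfl⟩ | ⟨l, rfl⟩)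
    · exact hmem (A l) (B l) _ (fA l) (fB l) (hne _ (fB l) (hB l)) (hAB l z₀ hz₀)
    · exact hmem (A' l) (B' l) _ (fA' l) (fB' l) (hne _ (fB' l) (hB' l)) (hAB' l z₀ hz₀)
  have key' : AlgebraicIndependent F (pt y z₀) := by
    let _ : Algebra F (Cst D) := (IntermediateField.inclusion hFC).toRingHom.toAlgebra
    have : IsScalarTower F (Cst D) ℂ := IsScalarTower.of_algebraMap_eq (fun _ => rfl)
    exact key.restrictScalars (K := Cst D) (algebraMap F (Cst D)).injective
  exact locInd_of hc hU hy ht hTS hz₀ key' ht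

end Pool.Agent.Y87.TW
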