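import Mathlib
import Pool.Agent.Y87.TW.AxF

/-!
# The functions `4 arctan x`, `log (4 arctan x)`, `log (x - b)`
-/

set_option autoImplicit false

open Filter Topology Set MvPolynomial

noncomputable section

namespace Pool.Agent.Y87.TW

open Pool.Agent.Y124 (LocInd)
open Complex (I arctan log slitPlane)

variable {U : Set ℂ} {k : ℕ}

/-- independence of functions on a set -/
def Ind (U : Set ℂ) {κ : Type} (x : ℂ → κ → ℂ) : Prop :=
  ∀ W : MvPolynomial κ ℂ, (∀ z ∈ U, eval (x z) W = 0) → W = 0

theorem ind_of_locInd {Y₀ : Type} {y : Y₀ → ℂ → ℂ} (hU : IsOpen U) {t : ℂ} (ht : t ∈ U)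
    (h : LocInd y t) : Ind U (pt y) := by
  intro W hW
  apply h
  filter_upwards [hU.mem_nhds ht] with z hz
  exact hW z hz

theorem Ind.comp {κ κ' : Type} {x : ℂ → κ → ℂ} (h : Ind U x) (e : κ' → κ)
    (he : Function.Injective e) : Ind U (fun z => x z ∘ e) := by
  intro W hW
  apply rename_injective e he
  rw [map_zero]
  apply h
  intro z hz
  rw [eval_rename]
  exact hW z hz

/-- Ax's theorem, with arbitrary index types -/
theorem ax_fun' (hU : IsOpen U) (hc : IsPreconnected U) {ι : Type} [Fintype ι] [Nonempty ι]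
    {u : ι → ℂ → ℂ} (hu : ∀ l, AnalyticOnNhd ℂ (u l) U)
    (hlin : ∀ q : ι → ℚ, (∀ z ∈ U, ∑ l, (q l : ℂ) * deriv (u l) z = 0) → q = 0)
    {Y₀ : Type} [Fintype Y₀] (hcard : Fintype.card Y₀ = Fintype.card ι) {y : Y₀ → ℂ → ℂ}
    (hy : ∀ i, AnalyticOnNhd ℂ (y i) U) (hA : ∀ l, RatOver U y (u l))
    (hE : ∀ l, RatOver U y (fun z => Complex.exp (u l z))) {t : ℂ} (ht : t ∈ U) : LocInd y t := by
  classical
  let e := Fintype.equivFin ι
  refine ax_fun hU hc (s := Fintype.card ι) Fintype.card_pos (u := fun l => u (e.symm l))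
    (fun l => hu _) (fun q hq => ?_) hcard hy (fun l => hA _) (fun l => hE _) ht
  have h1 := hlin (fun i => q (e i)) (fun z hz => by
    rw [← hq z hz, ← Equiv.sum_comp e]
    refine Finset.sum_congr rfl fun l _ => ?_
    rw [Equiv.symm_apply_apply])
  funext l
  have h2 := congrFun h1 (e.symm l)
  simpa using h2

/-- partial fractions -/
theorem pfrac {ι : Type} [Fintype ι] (c : ι → ℂ) (hc : Function.Injective c)
    (r : ι → ℂ) (S : Set ℂ) (hS : S.Infinite)
    (h : ∀ z ∈ S, (∀ j, z ≠ c j) ∧ ∑ j, r j / (z - c j) = 0) : r = 0 := by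
  classical
  set Q : Polynomial ℂ := ∑ j, Polynomial.C (r j) *
    ∏ i ∈ Finset.univ.erase j, (Polynomial.X - Polynomial.C (c i)) with hQ
  have h0 : Q = 0 := by
    apply Polynomial.eq_zero_of_infinite_isRoot
    refine hS.mono fun z hz => ?_
    obtain ⟨h1, h2⟩ := h z hz
    change Polynomial.IsRoot Q z
    rw [Polynomial.IsRoot.def, hQ, Polynomial.eval_finsetSum]
    have h3 : ∀ j, Polynomial.eval z (Polynomial.C (r j) *
        ∏ i ∈ Finset.univ.erase j, (Polynomial.X - Polynomial.C (c i))) =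
        (∏ i, (z - c i)) * (r j / (z - c j)) := by
      intro j
      rw [Polynomial.eval_mul, Polynomial.eval_C, Polynomial.eval_prod]
      simp only [Polynomial.eval_sub, Polynomial.eval_X, Polynomial.eval_C]
      rw [← Finset.mul_prod_erase Finset.univ (fun i => z - c i) (Finset.mem_univ j)]
      have h4 : z - c j ≠ 0 := sub_ne_zero.2 (h1 j)
      field_simp
    rw [Finset.sum_congr rfl fun j _ => h3 j, ← Finset.mul_sum, h2, mul_zero]
  funext j
  have h1 := congrArg (Polynomial.eval (c j)) h0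
  rw [hQ, Polynomial.eval_finsetSum, Finset.sum_eq_single j] at h1
  · rw [Polynomial.eval_mul, Polynomial.eval_C, Polynomial.eval_prod, Polynomial.eval_zero] at h1
    refine (mul_eq_zero.1 h1).resolve_right (Finset.prod_ne_zero_iff.2 ?_)
    intro i hi
    simp only [Polynomial.eval_sub, Polynomial.eval_X, Polynomial.eval_C]
    exact sub_ne_zero.2 fun h => (Finset.ne_of_mem_erase hi) (hc h).symm
  · intro i _ hij
    rw [Polynomial.eval_mul, Polynomial.eval_prod,
      Finset.prod_eq_zero (Finset.mem_erase.2 ⟨hij.symm, Finset.mem_univ _⟩), mul_zero]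
    simp
  · intro h; exact absurd (Finset.mem_univ _) h

/-- the points at which the functions are analytic -/
structure Ok (b : Fin k → ℂ) (z : ℂ) : Prop where
  h1 : (1 + z * I) / (1 - z * I) ∈ slitPlane
  h2 : 4 * arctan z ∈ slitPlane
  h3 : ∀ l, z - b l ∈ slitPlane

theorem ne_of_slit {z : ℂ} (h : (1 + z * I) / (1 - z * I) ∈ slitPlane) :
    1 + z * I ≠ 0 ∧ 1 - z * I ≠ 0 ∧ 1 + z ^ 2 ≠ 0 := by
  have h1 := Complex.slitPlane_ne_zero h
  have h2 : 1 + z * I ≠ 0 := fun h0 => h1 (by rw [h0, zero_div])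
  have h3 : 1 - z * I ≠ 0 := fun h0 => h1 (by rw [h0, div_zero])
  refine ⟨h2, h3, ?_⟩
  have h4 : 1 + z ^ 2 = (1 + z * I) * (1 - z * I) := by
    linear_combination z ^ 2 * Complex.I_sq
  rw [h4]
  exact mul_ne_zero h2 h3

theorem hasDerivAt_arctan {z : ℂ} (h : (1 + z * I) / (1 - z * I) ∈ slitPlane) :
    HasDerivAt arctan (1 / (1 + z ^ 2)) z := by
  obtain ⟨h2, h3, h4⟩ := ne_of_slit h
  have e1 : HasDerivAt (fun z : ℂ => 1 + z * I) I z := by
    simpa using ((hasDerivAt_id z).mul_const I).const_add 1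
  have e2 : HasDerivAt (fun z : ℂ => 1 - z * I) (-I) z := by
    simpa using ((hasDerivAt_id z).mul_const I).const_sub 1
  have e3 := ((e1.div e2 h3).clog h).const_mul (-I / 2)
  refine (e3.congr_deriv ?_).congr_of_eventuallyEq (Eventually.of_forall fun z => rfl)
  have h5 : 1 + z ^ 2 = (1 + z * I) * (1 - z * I) := by
    linear_combination z ^ 2 * Complex.I_sq
  rw [h5]
  simp only [Pi.div_apply]
  have h6 : I * (1 - z * I) - (1 + z * I) * -I = 2 * I := by ring
  rw [h6]
  have h7 : -I / 2 * (2 * I / (1 - z * I) ^ 2 / ((1 + z * I) / (1 - z * I))) =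
      (-I ^ 2) / ((1 + z * I) * (1 - z * I)) := by
    field_simp
  rw [h7, Complex.I_sq, neg_neg]

theorem exp_arctan {z : ℂ} (h : (1 + z * I) / (1 - z * I) ∈ slitPlane) :
    Complex.exp (2 * I * arctan z) = (1 + z * I) / (1 - z * I) := by
  have h1 : 2 * I * arctan z = log ((1 + z * I) / (1 - z * I)) := by
    unfold Complex.arctan
    linear_combination (-log ((1 + z * I) / (1 - z * I))) * Complex.I_sq
  rw [h1, Complex.exp_log (Complex.slitPlane_ne_zero h)]

theorem an_arctan {z : ℂ} (h : (1 + z * I) / (1 - z * I) ∈ slitPlane) : AnalyticAt ℂ arctan z := by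
  obtain ⟨h2, h3, h4⟩ := ne_of_slit h
  have e1 : AnalyticAt ℂ (fun z : ℂ => (1 + z * I) / (1 - z * I)) z :=
    (analyticAt_const.add (analyticAt_id.mul analyticAt_const)).div
      (analyticAt_const.sub (analyticAt_id.mul analyticAt_const)) h3
  exact analyticAt_const.mul (e1.clog h)

theorem ok_open (b : Fin k → ℂ) {z : ℂ} (h : Ok b z) : ∀ᶠ w in 𝓝 z, Ok b w := by
  obtain ⟨h2, h3, h4⟩ := ne_of_slit h.h1
  have e1 : ContinuousAt (fun z : ℂ => (1 + z * I) / (1 - z * I)) z :=
    ((continuous_const.add (continuous_id.mul continuous_const)).continuousAt).div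
      ((continuous_const.sub (continuous_id.mul continuous_const)).continuousAt) h3
  have e2 : ContinuousAt (fun z : ℂ => 4 * arctan z) z :=
    continuousAt_const.mul (an_arctan h.h1).continuousAt
  have e3 : ∀ l, ContinuousAt (fun z : ℂ => z - b l) z := fun l =>
    (continuous_id.sub continuous_const).continuousAt
  filter_upwards [e1.eventually (Complex.isOpen_slitPlane.mem_nhds h.h1),
    e2.eventually (Complex.isOpen_slitPlane.mem_nhds h.h2),
    Filter.eventually_all.2 fun l => (e3 l).eventually (Complex.isOpen_slitPlane.mem_nhds (h.h3 l))]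
    with w w1 w2 w3
  exact ⟨w1, w2, w3⟩

/-- the poles -/
def pol (b : Fin k → ℂ) : Option (Option (Fin k)) → ℂ :=
  fun o => o.elim I (fun o => o.elim (-I) b)

theorem pol_inj {b : Fin k → ℂ} (hb : Function.Injective b) (hbI : ∀ l, b l ≠ I ∧ b l ≠ -I) :
    Function.Injective (pol b) := by
  have h0 : I ≠ -I := by
    intro h
    have h1 : (2 : ℂ) * I = 0 := by linear_combination h
    exact Complex.I_ne_zero ((mul_eq_zero.1 h1).resolve_left two_ne_zero)
  intro o o' h
  rcases o with _ | _ | l <;> rcases o' with _ | _ | l'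
  · rfl
  · exact absurd h h0
  · exact absurd h.symm (hbI l').1
  · exact absurd h.symm h0
  · rfl
  · exact absurd h.symm (hbI l').2
  · exact absurd h (hbI l).1
  · exact absurd h (hbI l).2
  · rw [hb h]

theorem Ok.ne_pol {b : Fin k → ℂ} {z : ℂ} (h : Ok b z) : ∀ o, z ≠ pol b o := by
  obtain ⟨h2, h3, h4⟩ := ne_of_slit h.h1
  intro o
  rcases o with _ | _ | l
  · rintro rfl
    apply h4
    change 1 + I ^ 2 = 0
    rw [Complex.I_sq]
    ring
  · rintro rfl
    apply h4
    change 1 + (-I) ^ 2 = 0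
    rw [neg_sq, Complex.I_sq]
    ring
  · rintro rfl
    exact Complex.slitPlane_ne_zero (h.h3 l) (sub_self _)

theorem two_div {z : ℂ} (h4 : 1 + z ^ 2 ≠ 0) : 2 * I / (1 + z ^ 2) = 1 / (z - I) - 1 / (z - -I) := by
  have h5 : 1 + z ^ 2 = (z - I) * (z - -I) := by linear_combination Complex.I_sq
  have h6 : z - I ≠ 0 := by
    intro h; rw [h5, h, zero_mul] at h4; exact h4 rfl
  have h7 : z - -I ≠ 0 := by
    intro h; rw [h5, h, mul_zero] at h4; exact h4 rfl
  rw [h5]
  field_simp
  ring

/-- the first family: `4 arctan x` and the logarithms -/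
def y1 (b : Fin k → ℂ) : Option (Fin k) → ℂ → ℂ :=
  fun o => o.elim (fun z => 4 * arctan z) (fun l z => log (z - b l))

theorem infinite_of_open {U : Set ℂ} (hU : IsOpen U) {t : ℂ} (ht : t ∈ U) : U.Infinite := by
  have h1 : U ∈ 𝓝 t := hU.mem_nhds ht
  exact infinite_of_mem_nhds t h1

theorem der_log {b : Fin k → ℂ} {z : ℂ} (h : Ok b z) (l : Fin k) :
    HasDerivAt (fun z => log (z - b l)) (1 / (z - b l)) z := by
  have := ((hasDerivAt_id z).sub_const (b l)).clog (h.h3 l)
  simpa using this

theorem der_u {b : Fin k → ℂ} {z : ℂ} (h : Ok b z) :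
    HasDerivAt (fun z => 2 * I * arctan z) (1 / (z - I) - 1 / (z - -I)) z := by
  refine ((hasDerivAt_arctan h.h1).const_mul (2 * I)).congr_deriv ?_
  rw [← two_div (ne_of_slit h.h1).2.2]
  ring

theorem ind_y1 (hU : IsOpen U) (hc : IsPreconnected U) {b : Fin k → ℂ}
    (hb : Function.Injective b) (hbI : ∀ l, b l ≠ I ∧ b l ≠ -I) (hok : ∀ z ∈ U, Ok b z) {t : ℂ}
    (ht : t ∈ U) : LocInd (y1 b) t := by
  classical
  have hne : U.Nonempty := ⟨t, ht⟩
  let u : Option (Fin k) → ℂ → ℂ := fun o => o.elim (fun z => 2 * I * arctan z)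
    (fun l z => log (z - b l))
  refine ax_fun' hU hc (ι := Option (Fin k)) (u := u) ?_ ?_ rfl ?_ ?_ ?_ ht
  · rintro (_ | l) z hz
    · exact analyticAt_const.mul (an_arctan (hok z hz).h1)
    · exact (analyticAt_id.sub analyticAt_const).clog ((hok z hz).h3 l)
  · intro q hq
    have h1 := pfrac (pol b) (pol_inj hb hbI)
      (fun o => o.elim (q none : ℂ) (fun o => o.elim (-(q none : ℂ)) (fun l => (q (some l) : ℂ)))) U
      (infinite_of_open hU ht) (fun z hz => ⟨(hok z hz).ne_pol, by
        rw [← hq z hz, Fintype.sum_option, Fintype.sum_option, Fintype.sum_option]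
        have e1 : deriv (u none) z = 1 / (z - I) - 1 / (z - -I) := (der_u (hok z hz)).deriv
        have e2 : ∀ l, deriv (u (some l)) z = 1 / (z - b l) := fun l =>
          (der_log (hok z hz) l).deriv
        rw [e1]
        simp only [e2]
        simp only [pol, Option.elim]
        rw [← add_assoc]
        congr 1
        · ring
        · refine Finset.sum_congr rfl fun l _ => ?_
          ring⟩)
    funext o
    rcases o with _ | l
    · have h2 : (q none : ℂ) = 0 := congrFun h1 none
      exact_mod_cast h2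
    · have h2 : (q (some l) : ℂ) = 0 := congrFun h1 (some (some l))
      exact_mod_cast h2
  · rintro (_ | l) z hz
    · exact analyticAt_const.mul (an_arctan (hok z hz).h1)
    · exact (analyticAt_id.sub analyticAt_const).clog ((hok z hz).h3 l)
  · rintro (_ | l)
    · refine RatOver.poly hne (C (I / 2) * X (some none)) fun z hz => ?_
      rw [map_mul, eval_C, eval_X]
      change 2 * I * arctan z = I / 2 * (4 * arctan z)
      ring
    · refine RatOver.poly hne (X (some (some l))) fun z hz => ?_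
      rw [eval_X]
      rfl
  · rintro (_ | l)
    · refine ⟨1 + X none * C I, 1 - X none * C I, ⟨t, ht, ?_⟩, fun z hz => ?_⟩
      · simp only [map_sub, map_mul, map_one, eval_X, eval_C]
        exact (ne_of_slit (hok t ht).h1).2.1
      · simp only [map_sub, map_add, map_mul, map_one, eval_X, eval_C]
        have h1 := exp_arctan (hok z hz).h1
        have h2 := (ne_of_slit (hok z hz).h1).2.1
        change (1 - z * I) * Complex.exp (2 * I * arctan z) = 1 + z * I
        rw [h1]
        field_simp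
    · refine RatOver.poly hne (X none - C (b l)) fun z hz => ?_
      simp only [map_sub, eval_X, eval_C]
      exact Complex.exp_log (Complex.slitPlane_ne_zero ((hok z hz).h3 l))

end Pool.Agent.Y87.TW
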