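import Mathlib
import Pool.Agent.Y87.TW.Base

/-!
# Towers of exponentials over `x`, `4 arctan x`, `log (4 arctan x)`, `log (x - b)`
-/

set_option autoImplicit false

open Filter Topology Set MvPolynomial

noncomputable section

namespace Pool.Agent.Y87.TW

open Pool.Agent.Y124 (LocInd)
open Complex (I arctan log slitPlane)

variable {U : Set ℂ} {k : ℕ} {b : Fin k → ℂ} {E : ℕ → ℂ → ℂ}
  {P : (m : ℕ) → MvPolynomial (Fin 3 ⊕ (Fin k ⊕ Fin m)) ℂ}

/-- the functions -/
def yM (b : Fin k → ℂ) (E : ℕ → ℂ → ℂ) (M : ℕ) : Fin 2 ⊕ (Fin k ⊕ Fin M) → ℂ → ℂ :=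
  Sum.elim (fun j z => ![4 * arctan z, log (4 * arctan z)] j)
    (Sum.elim (fun l z => log (z - b l)) (fun j z => E j z))

/-- the functions and the variable -/
def vM (b : Fin k → ℂ) (E : ℕ → ℂ → ℂ) (M : ℕ) (z : ℂ) : Fin 3 ⊕ (Fin k ⊕ Fin M) → ℂ :=
  Sum.elim ![z, 4 * arctan z, log (4 * arctan z)]
    (Sum.elim (fun l => log (z - b l)) (fun j => E j z))

/-- the names of the functions and of the variable -/
def io (k M : ℕ) : Fin 3 ⊕ (Fin k ⊕ Fin M) → Option (Fin 2 ⊕ (Fin k ⊕ Fin M)) :=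
  Sum.elim ![none, some (Sum.inl 0), some (Sum.inl 1)] (fun v => some (Sum.inr v))

theorem io_inj (k M : ℕ) : Function.Injective (io k M) := by
  rintro (i | v) (j | w) h
  · fin_cases i <;> fin_cases j <;> simp [io] at h ⊢
  · fin_cases i <;> simp [io] at h
  · fin_cases j <;> simp [io] at h
  · simpa [io] using h

theorem pt_io (M : ℕ) (z : ℂ) : pt (yM b E M) z ∘ io k M = vM b E M z := by
  funext v
  rcases v with i | l | j
  · fin_cases i <;> rfl
  · rfl
  · rfl

/-- inclusion of the variables -/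
def up {m M : ℕ} (h : m ≤ M) : Fin 3 ⊕ (Fin k ⊕ Fin m) → Fin 3 ⊕ (Fin k ⊕ Fin M) :=
  Sum.map id (Sum.map id (Fin.castLE h))

theorem vM_up {m M : ℕ} (h : m ≤ M) (z : ℂ) : vM b E M z ∘ up h = vM b E m z := by
  funext v
  rcases v with i | l | j <;> rfl

/-- inclusion of the variables -/
def upN (m : ℕ) : Fin 3 ⊕ (Fin k ⊕ Fin m) → Fin 3 ⊕ (Fin k ⊕ ℕ) :=
  Sum.map id (Sum.map id (fun j : Fin m => (j : ℕ)))

theorem upN_up {m M : ℕ} (h : m ≤ M) : upN (k := k) M ∘ up h = upN m := by
  funext v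
  rcases v with i | l | j <;> rfl

/-- the condition on the exponents -/
def HI (P : (m : ℕ) → MvPolynomial (Fin 3 ⊕ (Fin k ⊕ Fin m)) ℂ) (M : ℕ) : Prop :=
  ∀ (s : Fin M → ℚ) (q₁ q₂ : ℚ) (r : Fin k → ℚ) (c : ℂ),
    ∑ m : Fin M, C (s m : ℂ) * rename (upN (m : ℕ)) (P m) =
      C c + C ((q₁ : ℂ) * I) * X (Sum.inl 1) + C (q₂ : ℂ) * X (Sum.inl 2) +
        ∑ l, C (r l : ℂ) * X (Sum.inr (Sum.inl l)) → s = 0

theorem HI.pred {M : ℕ} (h : HI P (M + 1)) : HI P M := by
  intro s q₁ q₂ r c hs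
  have h1 := h (Fin.snoc s 0) q₁ q₂ r c (by
    rw [Fin.sum_univ_castSucc, ← hs]
    simp)
  funext m
  have h2 := congrFun h1 m.castSucc
  simpa using h2

/-- the exponents -/
def uM (b : Fin k → ℂ) (E : ℕ → ℂ → ℂ)
    (P : (m : ℕ) → MvPolynomial (Fin 3 ⊕ (Fin k ⊕ Fin m)) ℂ) (M : ℕ) :
    Fin 2 ⊕ (Fin k ⊕ Fin M) → ℂ → ℂ :=
  Sum.elim (fun j z => ![2 * I * arctan z, log (4 * arctan z)] j)
    (Sum.elim (fun l z => log (z - b l)) (fun m z => eval (vM b E m z) (P m)))

theorem an_eval {κ : Type} {x : ℂ → κ → ℂ} (hx : ∀ i, AnalyticOnNhd ℂ (fun z => x z i) U)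
    (W : MvPolynomial κ ℂ) : AnalyticOnNhd ℂ (fun z => eval (x z) W) U := by
  induction W using MvPolynomial.induction_on with
  | C a =>
    simp only [eval_C]
    exact analyticOnNhd_const
  | add p q hp hq =>
    simp only [map_add]
    exact hp.add hq
  | mul_X p s hp =>
    simp only [map_mul, eval_X]
    exact hp.mul (hx s)

theorem an_vM (hok : ∀ z ∈ U, Ok b z) {m : ℕ} (hE : ∀ j < m, AnalyticOnNhd ℂ (E j) U) (i) :
    AnalyticOnNhd ℂ (fun z => vM b E m z i) U := by
  intro z hz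
  have h1 := an_arctan (hok z hz).h1
  have h2 : AnalyticAt ℂ (fun z => 4 * arctan z) z := analyticAt_const.mul h1
  rcases i with i | l | j
  · fin_cases i
    · exact analyticAt_id
    · exact h2
    · exact h2.clog (hok z hz).h2
  · exact (analyticAt_id.sub analyticAt_const).clog ((hok z hz).h3 l)
  · exact hE j j.2 z hz

theorem an_E (hok : ∀ z ∈ U, Ok b z)
    (hE : ∀ m, ∀ z, E m z = Complex.exp (eval (vM b E m z) (P m))) (m : ℕ) :
    AnalyticOnNhd ℂ (E m) U := by
  induction m using Nat.strong_induction_on with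
  | _ m ih =>
    have h1 : E m = fun z => Complex.exp (eval (vM b E m z) (P m)) := funext (hE m)
    rw [h1]
    intro z hz
    exact (an_eval (fun i => an_vM hok ih i) (P m) z hz).cexp

theorem an_uM (hok : ∀ z ∈ U, Ok b z)
    (hE : ∀ m, ∀ z, E m z = Complex.exp (eval (vM b E m z) (P m))) (M : ℕ) (i) :
    AnalyticOnNhd ℂ (uM b E P M i) U := by
  intro z hz
  have h1 := an_arctan (hok z hz).h1
  have h2 : AnalyticAt ℂ (fun z => 4 * arctan z) z := analyticAt_const.mul h1
  rcases i with i | l | j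
  · fin_cases i
    · exact analyticAt_const.mul h1
    · exact h2.clog (hok z hz).h2
  · exact (analyticAt_id.sub analyticAt_const).clog ((hok z hz).h3 l)
  · exact an_eval (fun i => an_vM hok (fun j _ => an_E hok hE j) i) (P j) z hz

theorem an_yM (hok : ∀ z ∈ U, Ok b z)
    (hE : ∀ m, ∀ z, E m z = Complex.exp (eval (vM b E m z) (P m))) (M : ℕ) (i) :
    AnalyticOnNhd ℂ (yM b E M i) U := by
  intro z hz
  have h1 := an_arctan (hok z hz).h1
  have h2 : AnalyticAt ℂ (fun z => 4 * arctan z) z := analyticAt_const.mul h1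
  rcases i with i | l | j
  · fin_cases i
    · exact h2
    · exact h2.clog (hok z hz).h2
  · exact (analyticAt_id.sub analyticAt_const).clog ((hok z hz).h3 l)
  · exact an_E hok hE j z hz

/-- independence from linear independence of the exponents -/
theorem tow_of_lin (hU : IsOpen U) (hc : IsPreconnected U) (hok : ∀ z ∈ U, Ok b z)
    (hE : ∀ m, ∀ z, E m z = Complex.exp (eval (vM b E m z) (P m))) (M : ℕ)
    (hlin : ∀ q : Fin 2 ⊕ (Fin k ⊕ Fin M) → ℚ,
      (∀ z ∈ U, ∑ l, (q l : ℂ) * deriv (uM b E P M l) z = 0) → q = 0) {t : ℂ} (ht : t ∈ U) :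
    LocInd (yM b E M) t := by
  classical
  have hne : U.Nonempty := ⟨t, ht⟩
  refine ax_fun' hU hc (u := uM b E P M) (an_uM hok hE M) hlin rfl (an_yM hok hE M) ?_ ?_ ht
  · rintro (i | l | m)
    · fin_cases i
      · refine RatOver.poly hne (C (I / 2) * X (some (Sum.inl 0))) fun z hz => ?_
        rw [map_mul, eval_C, eval_X]
        change 2 * I * arctan z = I / 2 * (4 * arctan z)
        ring
      · refine RatOver.poly hne (X (some (Sum.inl 1))) fun z hz => ?_
        rw [eval_X]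
        rfl
    · refine RatOver.poly hne (X (some (Sum.inr (Sum.inl l)))) fun z hz => ?_
      rw [eval_X]
      rfl
    · refine RatOver.poly hne (rename (io k M ∘ up m.2.le) (P m)) fun z hz => ?_
      rw [eval_rename, ← Function.comp_assoc, pt_io, vM_up]
      rfl
  · rintro (i | l | m)
    · fin_cases i
      · refine ⟨1 + X none * C I, 1 - X none * C I, ⟨t, ht, ?_⟩, fun z hz => ?_⟩
        · simp only [map_sub, map_mul, map_one, eval_X, eval_C]
          exact (ne_of_slit (hok t ht).h1).2.1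
        · simp only [map_sub, map_add, map_mul, map_one, eval_X, eval_C]
          have h1 := exp_arctan (hok z hz).h1
          have h2 := (ne_of_slit (hok z hz).h1).2.1
          change (1 - z * I) * Complex.exp (2 * I * arctan z) = 1 + z * I
          rw [h1]
          field_simp
      · refine RatOver.poly hne (X (some (Sum.inl 0))) fun z hz => ?_
        rw [eval_X]
        exact Complex.exp_log (Complex.slitPlane_ne_zero (hok z hz).h2)
    · refine RatOver.poly hne (X none - C (b l)) fun z hz => ?_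
      simp only [map_sub, eval_X, eval_C]
      exact Complex.exp_log (Complex.slitPlane_ne_zero ((hok z hz).h3 l))
    · refine RatOver.poly hne (X (some (Sum.inr (Sum.inr m)))) fun z hz => ?_
      rw [eval_X]
      exact (hE m z).symm

theorem der_p {z : ℂ} (h : Ok b z) :
    HasDerivAt (fun z => log (4 * arctan z)) (1 / (1 + z ^ 2) / arctan z) z := by
  have h1 := ((hasDerivAt_arctan h.h1).const_mul 4).clog h.h2
  refine h1.congr_deriv ?_
  have h2 := Complex.slitPlane_ne_zero h.h2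
  have h3 : arctan z ≠ 0 := fun h0 => h2 (by rw [h0, mul_zero])
  have h4 := (ne_of_slit h.h1).2.2
  field_simp

/-- the first step -/
theorem lin_zero (hU : IsOpen U) (hc : IsPreconnected U) (hb : Function.Injective b)
    (hbI : ∀ l, b l ≠ I ∧ b l ≠ -I) (hok : ∀ z ∈ U, Ok b z) {t : ℂ} (ht : t ∈ U)
    (q : Fin 2 ⊕ (Fin k ⊕ Fin 0) → ℚ)
    (hq : ∀ z ∈ U, ∑ l, (q l : ℂ) * deriv (uM b E P 0 l) z = 0) : q = 0 := by
  classical
  let r : Option (Option (Fin k)) → ℂ := fun o => o.elim (q (Sum.inl 0) : ℂ)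
    (fun o => o.elim (-(q (Sum.inl 0) : ℂ)) (fun l => (q (Sum.inr (Sum.inl l)) : ℂ)))
  have hid : ∀ z ∈ U, ∑ o, r o / (z - pol b o) +
      (q (Sum.inl 1) : ℂ) * (1 / (1 + z ^ 2) / arctan z) = 0 := by
    intro z hz
    rw [← hq z hz, Fintype.sum_sum_type, Fintype.sum_sum_type, Fin.sum_univ_two]
    have e1 : deriv (uM b E P 0 (Sum.inl 0)) z = 1 / (z - I) - 1 / (z - -I) :=
      (der_u (hok z hz)).deriv
    have e2 : ∀ l, deriv (uM b E P 0 (Sum.inr (Sum.inl l))) z = 1 / (z - b l) := fun l =>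
      (der_log (hok z hz) l).deriv
    have e3 : deriv (uM b E P 0 (Sum.inl 1)) z = 1 / (1 + z ^ 2) / arctan z :=
      (der_p (hok z hz)).deriv
    rw [e1, e3]
    simp only [e2, Finset.univ_eq_empty, Finset.sum_empty, add_zero]
    rw [Fintype.sum_option, Fintype.sum_option]
    simp only [pol, r, Option.elim]
    have e4 : ∀ l, (q (Sum.inr (Sum.inl l)) : ℂ) / (z - b l) =
        (q (Sum.inr (Sum.inl l)) : ℂ) * (1 / (z - b l)) := fun l => by ring
    rw [Finset.sum_congr rfl fun l _ => e4 l]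
    ring
  have hL := ind_of_locInd hU ht (ind_y1 hU hc hb hbI hok ht)
  set W : MvPolynomial (Option (Option (Fin k))) ℂ := X (some none) *
    (∑ o, C (r o) * ∏ o' ∈ Finset.univ.erase o, (X none - C (pol b o'))) +
    C (4 * (q (Sum.inl 1) : ℂ)) * ∏ l, (X none - C (b l)) with hW
  have hW0 : W = 0 := by
    apply hL
    intro z hz
    have h1 := (hok z hz).ne_pol
    have h2 := Complex.slitPlane_ne_zero (hok z hz).h2
    have h3 : arctan z ≠ 0 := fun h0 => h2 (by rw [h0, mul_zero])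
    have h4 := (ne_of_slit (hok z hz).h1).2.2
    have e1 : eval (pt (y1 b) z) W = 4 * arctan z *
        (∑ o, r o * ∏ o' ∈ Finset.univ.erase o, (z - pol b o')) +
        4 * (q (Sum.inl 1) : ℂ) * ∏ l, (z - b l) := by
      rw [hW]
      simp only [map_add, map_mul, map_sum, map_prod, map_sub, eval_X, eval_C]
      rfl
    have e2 : ∀ o, r o * ∏ o' ∈ Finset.univ.erase o, (z - pol b o') =
        (∏ o', (z - pol b o')) * (r o / (z - pol b o)) := by
      intro o
      rw [← Finset.mul_prod_erase Finset.univ (fun i => z - pol b i) (Finset.mem_univ o)]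
      have h5 : z - pol b o ≠ 0 := sub_ne_zero.2 (h1 o)
      field_simp
    have e3 : ∏ o', (z - pol b o') = (1 + z ^ 2) * ∏ l, (z - b l) := by
      rw [Fintype.prod_option, Fintype.prod_option]
      simp only [pol, Option.elim]
      rw [← mul_assoc]
      congr 1
      linear_combination -Complex.I_sq
    have e4 : ∑ o, r o / (z - pol b o) = -((q (Sum.inl 1) : ℂ) * (1 / (1 + z ^ 2) / arctan z)) :=
      eq_neg_of_add_eq_zero_left (hid z hz)
    rw [e1, Finset.sum_congr rfl fun o _ => e2 o, ← Finset.mul_sum, e3, e4]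
    field_simp
    ring
  have hq1 : (q (Sum.inl 1) : ℂ) = 0 := by
    have h1 := congrArg (eval (fun o : Option (Option (Fin k)) => o.elim t (fun _ => 0))) hW0
    rw [hW] at h1
    simp only [map_add, map_mul, map_prod, map_sub, eval_X, eval_C, map_zero, Option.elim,
      zero_mul, zero_add] at h1
    have h2 : ∏ l, (t - b l) ≠ 0 := by
      rw [Finset.prod_ne_zero_iff]
      intro l _
      exact Complex.slitPlane_ne_zero ((hok t ht).h3 l)
    have h3 := (mul_eq_zero.1 h1).resolve_right h2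
    exact (mul_eq_zero.1 h3).resolve_left (by norm_num)
  have hr := pfrac (pol b) (pol_inj hb hbI) r U (infinite_of_open hU ht) (fun z hz =>
    ⟨(hok z hz).ne_pol, by
      have h1 := hid z hz
      rwa [hq1, zero_mul, add_zero] at h1⟩)
  funext i
  rcases i with i | l | j
  · fin_cases i
    · have h2 : (q (Sum.inl 0) : ℂ) = 0 := congrFun hr none
      exact_mod_cast h2
    · exact_mod_cast hq1
  · have h2 : (q (Sum.inr (Sum.inl l)) : ℂ) = 0 := congrFun hr (some (some l))
    exact_mod_cast h2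
  · exact j.elim0

/-- the next step -/
theorem lin_succ (hU : IsOpen U) (hc : IsPreconnected U) (hok : ∀ z ∈ U, Ok b z)
    (hE : ∀ m, ∀ z, E m z = Complex.exp (eval (vM b E m z) (P m))) {M : ℕ}
    (hI : HI P (M + 1)) {t : ℂ} (ht : t ∈ U) (hM : LocInd (yM b E M) t)
    (q : Fin 2 ⊕ (Fin k ⊕ Fin (M + 1)) → ℚ)
    (hq : ∀ z ∈ U, ∑ l, (q l : ℂ) * deriv (uM b E P (M + 1) l) z = 0) : q = 0 := by
  classical
  have hu := an_uM hok hE (M + 1)
  have hInd : Ind U (vM b E M) := by
    have h1 := (ind_of_locInd hU ht hM).comp (io k M) (io_inj k M)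
    simp only [pt_io] at h1
    exact h1
  set G : ℂ → ℂ := fun z => ∑ l, (q l : ℂ) * uM b E P (M + 1) l z with hG
  have hGd : ∀ z ∈ U, HasDerivAt G 0 z := by
    intro z hz
    rw [← hq z hz]
    exact HasDerivAt.fun_sum fun l _ =>
      ((hu l z hz).differentiableAt.hasDerivAt.const_mul (q l : ℂ))
  have hGc : ∀ z ∈ U, G z = G t := fun z hz =>
    hU.is_const_of_deriv_eq_zero hc
      (fun x hx => (hGd x hx).differentiableAt.differentiableWithinAt)
      (fun x hx => (hGd x hx).deriv) hz ht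
  set W : MvPolynomial (Fin 3 ⊕ (Fin k ⊕ Fin M)) ℂ :=
    C ((q (Sum.inl 0) : ℂ) * (I / 2)) * X (Sum.inl 1) + C (q (Sum.inl 1) : ℂ) * X (Sum.inl 2) +
    (∑ l, C (q (Sum.inr (Sum.inl l)) : ℂ) * X (Sum.inr (Sum.inl l)) +
      ∑ m : Fin (M + 1), C (q (Sum.inr (Sum.inr m)) : ℂ) *
        rename (up (Nat.le_of_lt_succ m.2)) (P m)) - C (G t) with hW
  have hW0 : W = 0 := by
    apply hInd
    intro z hz
    have e0 : G z = (q (Sum.inl 0) : ℂ) * (2 * I * arctan z) +
        (q (Sum.inl 1) : ℂ) * log (4 * arctan z) +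
        (∑ l, (q (Sum.inr (Sum.inl l)) : ℂ) * log (z - b l) +
          ∑ m : Fin (M + 1), (q (Sum.inr (Sum.inr m)) : ℂ) * eval (vM b E m z) (P m)) := by
      change ∑ l, (q l : ℂ) * uM b E P (M + 1) l z = _
      rw [Fintype.sum_sum_type, Fintype.sum_sum_type, Fin.sum_univ_two]
      rfl
    have e1 : eval (vM b E M z) W = G z - G t := by
      rw [e0, hW]
      simp only [map_sub, map_add, map_mul, map_sum, eval_X, eval_C, eval_rename, vM_up]
      have b1 : vM b E M z (Sum.inl 1) = 4 * arctan z := rfl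
      have b2 : vM b E M z (Sum.inl 2) = log (4 * arctan z) := rfl
      have b3 : ∀ l, vM b E M z (Sum.inr (Sum.inl l)) = log (z - b l) := fun l => rfl
      rw [b1, b2]
      simp only [b3]
      ring
    rw [e1, hGc z hz, sub_self]
  have hs : (fun m => q (Sum.inr (Sum.inr m))) = 0 := by
    refine hI _ (-(q (Sum.inl 0)) / 2) (-(q (Sum.inl 1))) (fun l => -(q (Sum.inr (Sum.inl l)))) (G t) ?_
    have h1 := congrArg (rename (upN M)) hW0
    rw [hW] at h1
    simp only [map_sub, map_add, map_mul, map_sum, rename_X, rename_C, map_zero, rename_rename,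
      upN_up] at h1
    have a1 : upN (k := k) M (Sum.inl 1) = Sum.inl 1 := rfl
    have a2 : upN (k := k) M (Sum.inl 2) = Sum.inl 2 := rfl
    have a3 : ∀ l, upN (k := k) M (Sum.inr (Sum.inl l)) = Sum.inr (Sum.inl l) := fun l => rfl
    rw [a1, a2] at h1
    simp only [a3] at h1
    have e1 : ∑ l, (C ((-(q (Sum.inr (Sum.inl l))) : ℚ) : ℂ) * X (Sum.inr (Sum.inl l)) :
        MvPolynomial (Fin 3 ⊕ (Fin k ⊕ ℕ)) ℂ) =
        -∑ l, C (q (Sum.inr (Sum.inl l)) : ℂ) * X (Sum.inr (Sum.inl l)) := by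
      rw [← Finset.sum_neg_distrib]
      refine Finset.sum_congr rfl fun l _ => ?_
      rw [Rat.cast_neg, map_neg, neg_mul]
    rw [e1]
    have e2 : (C (((-(q (Sum.inl 0)) / 2 : ℚ) : ℂ) * I) : MvPolynomial (Fin 3 ⊕ (Fin k ⊕ ℕ)) ℂ) =
        -C ((q (Sum.inl 0) : ℂ) * (I / 2)) := by
      rw [← map_neg]
      congr 1
      push_cast
      ring
    rw [e2, Rat.cast_neg, map_neg, map_mul]
    linear_combination h1
  have hs' : ∀ m, q (Sum.inr (Sum.inr m)) = 0 := fun m => congrFun hs m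
  have hW1 : C ((q (Sum.inl 0) : ℂ) * (I / 2)) * X (Sum.inl 1) +
      C (q (Sum.inl 1) : ℂ) * X (Sum.inl 2) +
      ∑ l, C (q (Sum.inr (Sum.inl l)) : ℂ) * X (Sum.inr (Sum.inl l)) - C (G t) =
      (0 : MvPolynomial (Fin 3 ⊕ (Fin k ⊕ Fin M)) ℂ) := by
    rw [← hW0, hW]
    simp only [hs', Rat.cast_zero, map_zero, zero_mul, Finset.sum_const_zero, add_zero]
  have hc0 : G t = 0 := by
    have h1 := congrArg (eval (fun _ => (0 : ℂ))) hW1
    simpa using h1
  rw [hc0, map_zero, sub_zero] at hW1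
  funext i
  rcases i with i | l | m
  · fin_cases i
    · have h1 := congrArg (eval (Pi.single (Sum.inl 1) (1 : ℂ))) hW1
      simp only [map_add, map_mul, map_sum, eval_X, eval_C, map_zero, Pi.single_apply] at h1
      simpa using h1
    · have h1 := congrArg (eval (Pi.single (Sum.inl 2) (1 : ℂ))) hW1
      simp only [map_add, map_mul, map_sum, eval_X, eval_C, map_zero, Pi.single_apply] at h1
      simpa using h1
  · have h1 := congrArg (eval (Pi.single (Sum.inr (Sum.inl l)) (1 : ℂ))) hW1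
    simp only [map_add, map_mul, map_sum, eval_X, eval_C, map_zero, Pi.single_apply] at h1
    simpa using h1
  · exact hs' m

/-- **independence of the functions** -/
theorem tower_ind (hU : IsOpen U) (hc : IsPreconnected U) (hb : Function.Injective b)
    (hbI : ∀ l, b l ≠ I ∧ b l ≠ -I) (hok : ∀ z ∈ U, Ok b z)
    (hE : ∀ m, ∀ z, E m z = Complex.exp (eval (vM b E m z) (P m))) {t : ℂ} (ht : t ∈ U) (M : ℕ)
    (hI : HI P M) : LocInd (yM b E M) t := by
  induction M with
  | zero => exact tow_of_lin hU hc hok hE 0 (lin_zero hU hc hb hbI hok ht) ht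
  | succ M ih =>
    exact tow_of_lin hU hc hok hE (M + 1) (lin_succ hU hc hok hE hI ht (ih hI.pred)) ht

/-- independence of the functions near a point -/
theorem tower_loc (hb : Function.Injective b) (hbI : ∀ l, b l ≠ I ∧ b l ≠ -I)
    (hE : ∀ m, ∀ z, E m z = Complex.exp (eval (vM b E m z) (P m))) {t : ℂ} (ht : Ok b t) (M : ℕ)
    (hI : HI P M) : LocInd (yM b E M) t ∧ ∀ i, AnalyticAt ℂ (yM b E M i) t := by
  obtain ⟨ε, hε, h⟩ := Metric.eventually_nhds_iff_ball.1 (ok_open b ht)
  have h1 : t ∈ Metric.ball t ε := Metric.mem_ball_self hε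
  exact ⟨tower_ind Metric.isOpen_ball (convex_ball t ε).isPreconnected hb hbI h hE h1 M hI,
    fun i => an_yM h hE M i t h1⟩

end Pool.Agent.Y87.TW
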